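import Pool.Agent.Helper99_Eng3.Stmts

/-! # Squad ENG part 3, module OD2U: upper bound for the order of 2-elements. -/

set_option autoImplicit false

namespace Pool.Agent.Eng.H38

section arith

lemma sub_one_dvd (q f e : ℕ) (h : f ∣ e) : q ^ f - 1 ∣ q ^ e - 1 := by
  obtain ⟨n, rfl⟩ := h
  rw [pow_mul]
  simpa using Nat.sub_dvd_pow_sub_pow (q ^ f) 1 n

/-- an even power of an odd number is `1` modulo `4` -/
lemma sq_mod_four (q m : ℕ) (hq : q % 2 = 1) (hm : Even m) : q ^ m % 4 = 1 := by
  obtain ⟨n, rfl⟩ := hm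
  have h1 : q % 4 = 1 ∨ q % 4 = 3 := by omega
  have h2 : (q * q) % 4 = 1 := by
    rcases h1 with h | h <;> simp [Nat.mul_mod, h]
  rw [← two_mul, pow_mul, pow_two, Nat.pow_mod, h2]
  simp

lemma mod_four_of_dvd (c a : ℕ) (hc : 2 ≤ c) (h : 2 ^ c ∣ a + 1) : a % 4 = 3 := by
  have h1 : 4 ∣ 2 ^ c := by
    have : (4 : ℕ) = 2 ^ 2 := by norm_num
    rw [this]
    exact pow_dvd_pow 2 hc
  have h2 := h1.trans h
  omega

lemma half_dvd (c x : ℕ) (hc : 1 ≤ c) (hx : x % 4 = 1) (h : 2 ^ c ∣ x * x - 1) :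
    2 ^ (c - 1) ∣ x - 1 := by
  obtain ⟨u, hu⟩ : ∃ u, x + 1 = 2 * (2 * u + 1) := ⟨(x + 1) / 4, by omega⟩
  have hx1 : 1 ≤ x := by omega
  have h1 : x * x - 1 = 2 * ((x - 1) * (2 * u + 1)) := by
    have h2 : x * x - 1 = (x + 1) * (x - 1) := by
      have h5 := Nat.sq_sub_sq x 1
      simpa [pow_two] using h5
    rw [h2, hu]
    ring
  have h3 : 2 ^ c = 2 * 2 ^ (c - 1) := by
    rw [← pow_succ']
    congr 1
    omega
  rw [h1, h3] at h
  have h4 := Nat.dvd_of_mul_dvd_mul_left (by norm_num) h
  refine Nat.Coprime.dvd_of_dvd_mul_right ?_ h4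
  apply Nat.Coprime.pow_left
  rw [Nat.coprime_two_left]
  exact ⟨u, rfl⟩

end arith

section field
variable {F K : Type} [Field F] [Finite F] [Field K] [Algebra F K] [FiniteDimensional F K]

/-- the degree of a field generated by an element of order `2 ^ c` is a power of 2 -/
lemma deg_dvd (lam : K) (c : ℕ) (hq : Nat.card F % 2 = 1) (hadj : Algebra.adjoin F {lam} = ⊤)
    (h1 : lam ^ (2 ^ c) = 1) : Module.finrank F K ∣ Nat.totient (2 ^ c) := by
  have : Fintype F := Fintype.ofFinite F
  have : Finite K := Module.finite_of_finite F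
  rw [Nat.card_eq_fintype_card] at hq
  have hcop : Nat.Coprime (Fintype.card F) (2 ^ c) := by
    apply Nat.Coprime.pow_right
    rw [Nat.coprime_two_right]
    exact Nat.odd_iff.2 hq
  have h2 := Nat.ModEq.pow_totient hcop
  have h3 : lam ^ (Fintype.card F ^ Nat.totient (2 ^ c)) = lam := by
    have h4 : lam ^ (Fintype.card F ^ Nat.totient (2 ^ c)) = lam ^ 1 := by
      have h5 : ∀ n : ℕ, lam ^ n = lam ^ (n % 2 ^ c) := by
        intro n
        conv_lhs => rw [← Nat.div_add_mod n (2 ^ c)]
        rw [pow_add, pow_mul, h1, one_pow, one_mul]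
      rw [h5, h2, ← h5]
    rw [h4, pow_one]
  have h6 : (FiniteField.frobeniusAlgHom F K) ^ Nat.totient (2 ^ c) = 1 := by
    apply AlgHom.ext_of_adjoin_eq_top hadj
    intro x hx
    rw [Set.mem_singleton_iff] at hx
    subst hx
    rw [AlgHom.coe_pow, FiniteField.coe_frobeniusAlgHom, pow_iterate]
    exact h3
  rw [← FiniteField.orderOf_frobeniusAlgHom F K]
  exact orderOf_dvd_of_pow_eq_one h6

lemma card_sub_one (lam : K) (c : ℕ) (h0 : lam ≠ 0) (h1 : ∀ d : ℕ, lam ^ d = 1 → 2 ^ c ∣ d) :
    2 ^ c ∣ Nat.card F ^ Module.finrank F K - 1 := by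
  have : Fintype F := Fintype.ofFinite F
  have : Finite K := Module.finite_of_finite F
  have : Fintype K := Fintype.ofFinite K
  apply h1
  have h2 : Fintype.card K = Nat.card F ^ Module.finrank F K := by
    rw [Nat.card_eq_fintype_card]
    exact Module.card_eq_pow_finrank
  rw [← h2]
  exact FiniteField.pow_card_sub_one_eq_one lam h0

end field

section
variable {F V : Type} [Field F] [AddCommGroup V] [Module F V]

lemma restrict_pow (g : V ≃ₗ[F] V) (W : Submodule F V) (K : Type)
    [Field K] [Module F K] (lam : K) (e : W ≃ₗ[F] K) (gW : W →ₗ[F] W)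
    (h : ∀ w : W, (gW w : V) = g w) (he : ∀ w : W, e (gW w) = lam * e w) (n : ℕ) :
    ∀ w : W, ∃ w' : W, (w' : V) = (g ^ n) w ∧ e w' = lam ^ n * e w := by
  induction n with
  | zero =>
    intro w
    refine ⟨w, rfl, ?_⟩
    rw [pow_zero, one_mul]
  | succ n ih =>
    intro w
    obtain ⟨w', hw, hw'⟩ := ih w
    refine ⟨gW w', ?_, ?_⟩
    · rw [h, hw, pow_succ']
      rfl
    · rw [he, hw', pow_succ', mul_assoc]

end

theorem od2u (hLift : LiftStmt) (hLir : LirStmt) (hOdec : OdecStmt) (hOirr : OirrStmt) :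
    Od2uStmt := by
  intro F V _ _ _ _ _ Q j k hND h2 hj hN1 hN2 hy
  have : Finite V := Module.finite_of_finite F
  have : Finite (V ≃ₗ[F] V) := Finite.of_injective (fun g => (g : V → V))
    (fun a b h => LinearEquiv.ext (fun v => congrFun h v))
  set q := Nat.card F with hq
  have hodd : q % 2 = 1 := by
    have : Fintype F := Fintype.ofFinite F
    rw [hq, Nat.card_eq_fintype_card]
    apply FiniteField.odd_card_of_char_ne_two
    intro h
    apply h2
    have := ringChar.Nat.cast_ringChar (R := F)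
    rw [h] at this
    exact_mod_cast this
  have hqpow : ∀ n, q ^ n % 2 = 1 := fun n => by rw [Nat.pow_mod, hodd]; simp
  rcases Nat.lt_or_ge k 2 with hk | hk
  · have h3 := hqpow (2 ^ j)
    have h4 : 2 ∣ q ^ (2 ^ j) - 1 := by omega
    refine dvd_trans ?_ h4
    interval_cases k <;> norm_num
  obtain ⟨g, c, hgo, hgk⟩ := hLift (OmV Q) (Subgroup.center _) 2 k Nat.prime_two hy
  have hkc : k ≤ c := by
    have h3 : orderOf (QuotientGroup.mk g : POm Q) ∣ orderOf g :=
      orderOf_map_dvd (QuotientGroup.mk' (Subgroup.center ↥(OmV Q))) g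
    rw [hgo, hgk] at h3
    exact (Nat.pow_dvd_pow_iff_le_right (by norm_num)).1 h3
  have hle : OmV Q ≤ OV Q := by
    unfold OmV
    rw [Subgroup.commutator_le]
    intro a ha b hb
    exact (OV Q).mul_mem ((OV Q).mul_mem ((OV Q).mul_mem ha hb) ((OV Q).inv_mem ha))
      ((OV Q).inv_mem hb)
  obtain ⟨g0, hg0⟩ : ∃ g0 : V ≃ₗ[F] V, g0 = (g : V ≃ₗ[F] V) := ⟨_, rfl⟩
  have hg0V : g0 ∈ OV Q := by
    rw [hg0]
    exact hle g.2
  have ho : orderOf g0 = 2 ^ c := by
    rw [hg0, Subgroup.orderOf_coe, hgo]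
  have h4c : 3 ≤ 2 ^ c := by
    calc 3 ≤ 2 ^ 2 := by norm_num
      _ ≤ 2 ^ c := Nat.pow_le_pow_right (by norm_num) (by omega)
  obtain ⟨W, hWb, hgW, hmin, hord, halt⟩ := hOdec F V Q 2 c hND g0 hg0V Nat.prime_two
    (by exact_mod_cast h2) (by omega) h4c ho
  have : Nontrivial W := (Submodule.nontrivial_iff_ne_bot).2 hWb
  have hg2c : g0 ^ (2 ^ c) = 1 := by
    rw [← ho]
    exact pow_orderOf_eq_one g0
  -- restriction to W
  obtain ⟨gW, hgWdef⟩ : ∃ gW : W →ₗ[F] W, gW = (g0 : V →ₗ[F] V).restrict hgW := ⟨_, rfl⟩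
  have hgWapp : ∀ w : W, (gW w : V) = g0 w := by
    intro w
    rw [hgWdef]
    rfl
  have hirr : ∀ W' : Submodule F W, (∀ x ∈ W', gW x ∈ W') → W' = ⊥ ∨ W' = ⊤ := by
    intro W' hW'
    rcases hmin (W'.map W.subtype) (Submodule.map_subtype_le W W') (by
      rintro x ⟨w, hw, rfl⟩
      exact ⟨gW w, hW' w hw, hgWapp w⟩) with h | h
    · left
      rw [eq_bot_iff]
      intro w hw
      have h3 : (w : V) ∈ W'.map W.subtype := ⟨w, hw, rfl⟩
      rw [h, Submodule.mem_bot] at h3
      rw [Submodule.mem_bot]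
      exact Subtype.ext h3
    · right
      rw [eq_top_iff]
      intro w _
      have h3 : (w : V) ∈ W'.map W.subtype := by
        rw [h]
        exact w.2
      obtain ⟨w', hw', hw''⟩ := h3
      have h4 : w' = w := Subtype.ext hw''
      rwa [← h4]
  have hlam_gen : ∀ (K : Type) (_ : Field K) (_ : Algebra F K) (lam : K) (e : W ≃ₗ[F] K),
      (∀ w, e (gW w) = lam * e w) →
      (∀ d : ℕ, lam ^ d = 1 ↔ ∀ w ∈ W, (g0 ^ d) w = w) ∧
      (∀ d : ℕ, lam ^ d = -1 → ∀ w ∈ W, (g0 ^ d) w = -w) := by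
    intro K _ _ lam e he
    have hr := restrict_pow g0 W K lam e gW hgWapp he
    refine ⟨fun d => ⟨fun hd w hw => ?_, fun hd => ?_⟩, fun d hd w hw => ?_⟩
    · obtain ⟨w', hw1, hw2⟩ := hr d ⟨w, hw⟩
      rw [hd, one_mul] at hw2
      rw [← hw1]
      exact congrArg Subtype.val (e.injective hw2)
    · obtain ⟨w, hw⟩ := exists_ne (0 : W)
      obtain ⟨w', hw1, hw2⟩ := hr d w
      have h3 : w' = w := Subtype.ext (hw1.trans (hd w w.2))
      rw [h3] at hw2
      have h4 : e w ≠ 0 := by
        intro h0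
        exact hw (e.map_eq_zero_iff.1 h0)
      have h5 : lam ^ d * e w = 1 * e w := by rw [← hw2, one_mul]
      exact mul_right_cancel₀ h4 h5
    · obtain ⟨w', hw1, hw2⟩ := hr d ⟨w, hw⟩
      rw [hd, neg_one_mul, ← map_neg] at hw2
      rw [← hw1]
      exact congrArg Subtype.val (e.injective hw2)
  obtain ⟨K, _, _, _, lam, e, hadj, he⟩ := hLir F W gW hirr
  obtain ⟨hlam, hlamneg⟩ := hlam_gen K _ _ lam e he
  have hlam1 : lam ^ (2 ^ c) = 1 := by
    rw [hlam]
    intro w _
    rw [hg2c]
    rfl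
  have hlamd : ∀ d : ℕ, lam ^ d = 1 → 2 ^ c ∣ d := fun d hd => hord d ((hlam d).1 hd)
  have hlam0 : lam ≠ 0 := by
    rintro rfl
    rw [zero_pow (pow_ne_zero c (by norm_num))] at hlam1
    exact zero_ne_one hlam1
  have hf : Module.finrank F W = Module.finrank F K := e.finrank_eq
  have hdeg := deg_dvd lam c hodd hadj hlam1
  rw [Nat.totient_prime_pow Nat.prime_two (by omega)] at hdeg
  simp only [Nat.add_one_sub_one, mul_one] at hdeg
  obtain ⟨b, -, hb⟩ := (Nat.dvd_prime_pow Nat.prime_two).1 hdeg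
  have hcard := card_sub_one (F := F) lam c hlam0 hlamd
  rw [hb, ← hq] at hcard
  rw [hb] at hf
  have hkd : 2 ^ k ∣ 2 ^ c := pow_dvd_pow 2 hkc
  rcases halt with hts | ⟨hW2, hWnd⟩
  · -- totally singular
    have hpol : ∀ u ∈ W, ∀ v ∈ W, QuadraticMap.polar Q u v = 0 := by
      intro u hu v hv
      unfold QuadraticMap.polar
      rw [hts _ (W.add_mem hu hv), hts u hu, hts v hv]
      simp
    have hker : W ⊓ LinearMap.ker Q.polarBilin = ⊥ := by
      rw [eq_bot_iff]
      rintro u ⟨-, hu⟩
      rw [Submodule.mem_bot]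
      apply hND
      intro v
      have h3 := LinearMap.congr_fun (LinearMap.mem_ker.1 hu) v
      simpa using h3
    have hdim := LinearMap.BilinForm.finrank_add_finrank_orthogonal' (B := Q.polarBilin) W
    rw [hker, finrank_bot, add_zero] at hdim
    have hWo : W ≤ LinearMap.BilinForm.orthogonal Q.polarBilin W := by
      intro u hu v hv
      show QuadraticMap.polar Q v u = 0
      exact hpol v hv u hu
    have hfin := Submodule.finrank_mono hWo
    have hb1 : b ≤ j + 1 := by
      have h3 : 2 ^ b ≤ 2 ^ (j + 1) := by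
        rw [pow_succ]
        omega
      exact (Nat.pow_le_pow_iff_right (by norm_num)).1 h3
    rcases Nat.lt_or_ge j b with hjb | hjb
    · have hbj : b = j + 1 := by omega
      subst hbj
      rw [pow_succ] at hf
      have hWeq : W = LinearMap.BilinForm.orthogonal Q.polarBilin W := by
        apply Submodule.eq_of_le_of_finrank_le hWo
        omega
      -- the power is -1
      have hlh : lam ^ (2 ^ (c - 1)) = -1 := by
        have h3 : lam ^ (2 ^ (c - 1)) * lam ^ (2 ^ (c - 1)) = 1 := by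
          rw [← pow_add, ← two_mul, ← pow_succ']
          have : c - 1 + 1 = c := by omega
          rw [this, hlam1]
        rcases mul_self_eq_one_iff.1 h3 with h4 | h4
        · exfalso
          have h5 := Nat.le_of_dvd (by positivity) (hlamd _ h4)
          have h6 : 2 ^ (c - 1) < 2 ^ c := Nat.pow_lt_pow_right (by norm_num) (by omega)
          omega
        · exact h4
      obtain ⟨g1, hg1⟩ : ∃ g1 : V ≃ₗ[F] V, g1 = g0 ^ (2 ^ (c - 1)) := ⟨_, rfl⟩
      have hg1W : ∀ w ∈ W, g1 w = -w := by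
        intro w hw
        rw [hg1]
        exact hlamneg _ hlh w hw
      have hg1V : g1 ∈ OV Q := by
        rw [hg1]
        exact (OV Q).pow_mem hg0V _
      have hg1Q : ∀ v, Q (g1 v) = Q v := hg1V
      have hg11 : ∀ v, g1 (g1 v) = v := by
        intro v
        have h3 : g1 * g1 = 1 := by
          rw [hg1, ← pow_add, ← two_mul, ← pow_succ']
          have : c - 1 + 1 = c := by omega
          rw [this, hg2c]
        exact LinearEquiv.congr_fun h3 v
      have hg1pol : ∀ u v, QuadraticMap.polar Q (g1 u) (g1 v) = QuadraticMap.polar Q u v := by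
        intro u v
        simp only [QuadraticMap.polar, ← map_add, hg1Q]
      have hneg : ∀ v, g1 v = -v := by
        intro v
        have h3 : g1 v + v ∈ W := by
          rw [hWeq]
          intro w hw
          show QuadraticMap.polar Q w (g1 v + v) = 0
          have h4 : w = g1 (-w) := by rw [map_neg, hg1W w hw, neg_neg]
          rw [QuadraticMap.polar_add_right]
          conv_lhs => enter [1]; rw [h4]
          rw [hg1pol, QuadraticMap.polar_neg_left]
          simp
        have h4 := hg1W _ h3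
        rw [map_add, hg11] at h4
        have h5 : (2 : F) • (g1 v + v) = 0 := by
          rw [two_smul]
          have : g1 v + v + (g1 v + v) = (v + g1 v) + (g1 v + v) := by abel
          rw [this, h4]
          abel
        have h6 := (smul_eq_zero.1 h5).resolve_left h2
        exact eq_neg_of_add_eq_zero_left h6
      have hcen : g ^ (2 ^ (c - 1)) ∈ Subgroup.center ↥(OmV Q) := by
        rw [Subgroup.mem_center_iff]
        intro h
        apply Subtype.ext
        apply LinearEquiv.ext
        intro v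
        have h3 : ((g ^ (2 ^ (c - 1)) : ↥(OmV Q)) : V ≃ₗ[F] V) = g1 := by
          rw [Subgroup.coe_pow, ← hg0, hg1]
        rw [Subgroup.coe_mul, Subgroup.coe_mul, h3]
        show (h : V ≃ₗ[F] V) (g1 v) = g1 ((h : V ≃ₗ[F] V) v)
        rw [hneg, hneg, map_neg]
      have hk1 : 2 ^ k ∣ 2 ^ (c - 1) := by
        rw [← hgk]
        apply orderOf_dvd_of_pow_eq_one
        rw [← QuotientGroup.mk_pow]
        exact (QuotientGroup.eq_one_iff _).2 hcen
      refine hk1.trans (half_dvd c _ (by omega) (sq_mod_four q (2 ^ j) hodd ?_) ?_)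
      · exact (Nat.even_pow.2 ⟨even_two, by omega⟩)
      · have h3 : q ^ 2 ^ j * q ^ 2 ^ j = q ^ 2 ^ (j + 1) := by
          rw [← pow_add]
          congr 1
          rw [pow_succ]
          ring
        rw [h3]
        exact hcard
    · exact (hkd.trans hcard).trans (sub_one_dvd q _ _ (pow_dvd_pow 2 hjb))
  · -- nondegenerate
    have hginj : Function.Injective gW := by
      intro a b hab
      apply Subtype.ext
      apply g0.injective
      rw [← hgWapp, ← hgWapp, hab]
    obtain ⟨g', hg'⟩ : ∃ g' : W ≃ₗ[F] W, ∀ w, g' w = gW w :=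
      ⟨LinearEquiv.ofInjectiveEndo gW hginj, fun w => rfl⟩
    obtain ⟨P, hP⟩ : ∃ P : QuadraticForm F W, ∀ w, P w = Q w := ⟨Q.comp W.subtype, fun w => rfl⟩
    have hPpol : ∀ u v : W, QuadraticMap.polar P u v = QuadraticMap.polar Q (u : V) (v : V) := by
      intro u v
      simp only [QuadraticMap.polar, hP, Submodule.coe_add]
    have hPND : ND P := by
      intro u hu
      apply Subtype.ext
      apply hWnd u u.2
      intro v hv
      rw [← hPpol u ⟨v, hv⟩]
      exact hu _
    have hg'V : g' ∈ OV P := by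
      intro w
      rw [hP, hP, hg', hgWapp]
      exact hg0V w
    obtain ⟨m, K', _, _, _, lam', QK, φ, hm, hfm, -, -, hl1, hφ, -⟩ := hOirr F W P hPND hW2 g' hg'V
      (by
        intro W' hW'
        apply hirr
        intro x hx
        rw [← hg']
        exact hW' x hx)
    obtain ⟨hlam', -⟩ := hlam_gen K' _ _ lam' φ (fun w => by rw [← hg', hφ])
    have h3 : 2 ^ c ∣ q ^ m + 1 := hord _ ((hlam' _).1 hl1)
    have h4 := mod_four_of_dvd c _ (by omega) h3
    have hmodd : ¬ Even m := by
      intro hm2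
      have := sq_mod_four q m hodd hm2
      omega
    have h5 : 2 * m = 2 ^ b := by
      rw [← hfm, ← φ.finrank_eq, hf]
    have hm1 : m = 1 := by
      rcases Nat.eq_zero_or_pos b with rfl | hb0
      · omega
      · have h6 : 2 ^ b = 2 * 2 ^ (b - 1) := by
          rw [← pow_succ']
          congr 1
          omega
        rw [h6] at h5
        have h7 : m = 2 ^ (b - 1) := by omega
        rcases Nat.eq_zero_or_pos (b - 1) with h8 | h8
        · rw [h8] at h7
          simpa using h7
        · exfalso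
          apply hmodd
          rw [h7]
          exact Nat.even_pow.2 ⟨even_two, by omega⟩
    subst hm1
    rw [pow_one] at h3
    have h6 : q + 1 ∣ q ^ 2 - 1 := by
      refine ⟨q - 1, ?_⟩
      have := Nat.sq_sub_sq q 1
      simpa using this
    refine ((hkd.trans h3).trans h6).trans (sub_one_dvd q _ _ ?_)
    exact dvd_pow_self 2 (by omega)

end Pool.Agent.Eng.H38
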