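import Pool.Agent.Helper99_Eng3.Stmts

/-! # Squad ENG part 3, module ODEC: an irreducible subspace on which `g` has full order. -/

set_option autoImplicit false

namespace Pool.Agent.Eng.H38

section
variable {F V : Type} [Field F] [AddCommGroup V] [Module F V]

lemma pow_mem_of (g : V ≃ₗ[F] V) (W : Submodule F V) (h : ∀ x ∈ W, g x ∈ W) (n : ℕ) :
    ∀ x ∈ W, (g ^ n) x ∈ W := by
  induction n with
  | zero => intro x hx; simpa using hx
  | succ n ih =>
    intro x hx
    rw [pow_succ']
    exact h _ (ih x hx)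

lemma exists_min [FiniteDimensional F V] (g : V ≃ₗ[F] V) (n : ℕ)
    (hc : ∀ W : Submodule F V, (∀ x ∈ W, g x ∈ W) →
      ∃ W' : Submodule F V, (∀ x ∈ W', g x ∈ W') ∧ IsCompl W W') :
    ∀ (m : ℕ) (U : Submodule F V), Module.finrank F U = m → (∀ x ∈ U, g x ∈ U) →
      (∃ x ∈ U, (g ^ n) x ≠ x) →
      ∃ W : Submodule F V, W ≤ U ∧ (∀ x ∈ W, g x ∈ W) ∧ (∃ x ∈ W, (g ^ n) x ≠ x) ∧
        ∀ W' : Submodule F V, W' ≤ W → (∀ x ∈ W', g x ∈ W') → W' = ⊥ ∨ W' = W := by
  intro m
  induction m using Nat.strong_induction_on with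
  | _ m ih =>
    intro U hU hgU hx
    by_cases hmin : ∀ W' : Submodule F V, W' ≤ U → (∀ x ∈ W', g x ∈ W') → W' = ⊥ ∨ W' = U
    · exact ⟨U, le_rfl, hgU, hx, hmin⟩
    · push Not at hmin
      obtain ⟨W1, hW1U, hgW1, hW1b, hW1U'⟩ := hmin
      obtain ⟨W2, hgW2, hcompl⟩ := hc W1 hgW1
      have hlt1 : W1 < U := lt_of_le_of_ne hW1U hW1U'
      have hgi : ∀ x ∈ U ⊓ W2, g x ∈ U ⊓ W2 := fun x hx => ⟨hgU x hx.1, hgW2 x hx.2⟩
      have hlt2 : U ⊓ W2 < U := by
        refine lt_of_le_of_ne inf_le_left ?_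
        intro heq
        have h1 : U ≤ W2 := by
          rw [← heq]
          exact inf_le_right
        apply hW1b
        have h2 : W1 ≤ W1 ⊓ W2 := le_inf le_rfl (hW1U.trans h1)
        rw [hcompl.inf_eq_bot] at h2
        exact le_bot_iff.1 h2
      have hsup : U ≤ W1 ⊔ (U ⊓ W2) := by
        have h3 : U ⊓ (W1 ⊔ W2) = W1 ⊔ U ⊓ W2 := by
          rw [inf_comm, sup_inf_assoc_of_le W2 hW1U, inf_comm W2 U]
        rw [← h3, hcompl.sup_eq_top]
        simp
      by_cases h1 : ∃ x ∈ W1, (g ^ n) x ≠ x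
      · obtain ⟨W, hW, h⟩ := ih _ (hU ▸ Submodule.finrank_lt_finrank_of_lt hlt1) W1 rfl hgW1 h1
        exact ⟨W, hW.trans hW1U, h⟩
      · by_cases h2 : ∃ x ∈ U ⊓ W2, (g ^ n) x ≠ x
        · obtain ⟨W, hW, h⟩ := ih _ (hU ▸ Submodule.finrank_lt_finrank_of_lt hlt2) _ rfl hgi h2
          exact ⟨W, hW.trans inf_le_left, h⟩
        · exfalso
          push Not at h1 h2
          obtain ⟨x, hxU, hx⟩ := hx
          obtain ⟨y, hy, z, hz, rfl⟩ := Submodule.mem_sup.1 (hsup hxU)
          apply hx
          rw [map_add, h1 y hy, h2 z hz]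

lemma fix_dvd (g : V ≃ₗ[F] V) (W : Submodule F V) (p k : ℕ) (hp : p.Prime) (hk : 1 ≤ k)
    (ho : orderOf g = p ^ k) (hx : ∃ x ∈ W, (g ^ (p ^ (k - 1))) x ≠ x) (d : ℕ)
    (hd : ∀ w ∈ W, (g ^ d) w = w) : p ^ k ∣ d := by
  have hgk : g ^ (p ^ k) = 1 := by rw [← ho]; exact pow_orderOf_eq_one g
  have hpow : ∀ (n : ℕ) (w : V), (g ^ n) w = (fun v => g v)^[n] w := by
    intro n
    induction n with
    | zero => intro w; rfl
    | succ n ih =>
      intro w
      rw [Function.iterate_succ_apply', ← ih w, pow_succ']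
      rfl
  have hgcd : ∀ w ∈ W, (g ^ (Nat.gcd d (p ^ k))) w = w := by
    intro w hw
    rw [hpow]
    have h1 : Function.IsPeriodicPt (fun v => g v) d w := by
      show (fun v => g v)^[d] w = w
      rw [← hpow, hd w hw]
    have h2 : Function.IsPeriodicPt (fun v => g v) (p ^ k) w := by
      show (fun v => g v)^[p ^ k] w = w
      rw [← hpow, hgk]
      rfl
    exact h1.gcd h2
  obtain ⟨j, hj, hgj⟩ := (Nat.dvd_prime_pow hp).1 (Nat.gcd_dvd_right d (p ^ k))
  rw [hgj] at hgcd
  by_cases hjk : j = k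
  · subst hjk
    rw [← hgj]
    exact Nat.gcd_dvd_left _ _
  · exfalso
    obtain ⟨x, hxW, hx⟩ := hx
    apply hx
    obtain ⟨i, hi⟩ : p ^ j ∣ p ^ (k - 1) := pow_dvd_pow p (by omega)
    have h3 : ∀ n : ℕ, (g ^ (p ^ j * n)) x = x := by
      intro n
      induction n with
      | zero => simp
      | succ n ih =>
        rw [Nat.mul_succ, pow_add]
        show (g ^ (p ^ j * n)) ((g ^ (p ^ j)) x) = x
        rw [hgcd x hxW, ih]
    rw [hi]
    exact h3 i

end

theorem odec (hLSS : LssStmt) : OdecStmt := by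
  intro F V _ _ _ _ _ Q p k hND g hg hp hpF hk h3 ho
  have hgQ : ∀ v, Q (g v) = Q v := hg
  have hgk : g ^ (p ^ k) = 1 := by rw [← ho]; exact pow_orderOf_eq_one g
  have hgB : ∀ u v, QuadraticMap.polar Q (g u) (g v) = QuadraticMap.polar Q u v := by
    intro u v
    simp only [QuadraticMap.polar, ← map_add, hgQ]
  -- invariant complements
  have hc : ∀ W : Submodule F V, (∀ x ∈ W, g x ∈ W) →
      ∃ W' : Submodule F V, (∀ x ∈ W', g x ∈ W') ∧ IsCompl W W' := by
    intro W hW
    refine hLSS F V (g : V →ₗ[F] V) (p ^ k) 1 ?_ one_ne_zero ?_ W hW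
    · push_cast
      exact pow_ne_zero k hpF
    · rw [one_smul]
      ext v
      have h1 : ∀ n : ℕ, ((g : V →ₗ[F] V) ^ n) v = (g ^ n) v := by
        intro n
        induction n with
        | zero => rfl
        | succ n ih =>
          rw [pow_succ', pow_succ']
          show g (((g : V →ₗ[F] V) ^ n) v) = g ((g ^ n) v)
          rw [ih]
      rw [h1, hgk]
      rfl
  have hne : ∃ x ∈ (⊤ : Submodule F V), (g ^ (p ^ (k - 1))) x ≠ x := by
    by_contra hcon
    push Not at hcon
    have h1 : g ^ (p ^ (k - 1)) = 1 := by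
      ext v
      exact hcon v trivial
    have h2 := orderOf_dvd_of_pow_eq_one h1
    rw [ho] at h2
    have h4 := Nat.le_of_dvd (pow_pos hp.pos _) h2
    have h5 : p ^ (k - 1) < p ^ k := Nat.pow_lt_pow_right hp.one_lt (by omega)
    omega
  obtain ⟨W, -, hgW, hxW, hmin⟩ := exists_min g (p ^ (k - 1)) hc _ ⊤ rfl
    (fun x _ => trivial) hne
  have hord := fix_dvd g W p k hp hk ho hxW
  refine ⟨W, ?_, hgW, hmin, hord, ?_⟩
  · rintro rfl
    obtain ⟨x, hx, hx'⟩ := hxW
    rw [Submodule.mem_bot] at hx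
    subst hx
    exact hx' (map_zero _)
  · -- the radical
    have hpolar_add : ∀ a b c, QuadraticMap.polar Q (a + b) c =
        QuadraticMap.polar Q a c + QuadraticMap.polar Q b c :=
      fun a b c => QuadraticMap.polar_add_left Q a b c
    let R : Submodule F V :=
      { carrier := {u | u ∈ W ∧ ∀ v ∈ W, QuadraticMap.polar Q u v = 0}
        add_mem' := by
          rintro a b ⟨ha, ha'⟩ ⟨hb, hb'⟩
          refine ⟨W.add_mem ha hb, fun v hv => ?_⟩
          rw [QuadraticMap.polar_add_left, ha' v hv, hb' v hv, add_zero]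
        zero_mem' := ⟨W.zero_mem, fun v _ => QuadraticMap.polar_zero_left Q v⟩
        smul_mem' := by
          rintro c a ⟨ha, ha'⟩
          refine ⟨W.smul_mem c ha, fun v hv => ?_⟩
          rw [QuadraticMap.polar_smul_left, ha' v hv, smul_zero] }
    have hsurj : ∀ v ∈ W, ∃ w ∈ W, g w = v := by
      intro v hv
      refine ⟨(g ^ (p ^ k - 1)) v, pow_mem_of g W hgW _ v hv, ?_⟩
      have h1 : g ((g ^ (p ^ k - 1)) v) = (g ^ (p ^ k)) v := by
        have h2 : p ^ k = (p ^ k - 1) + 1 := by omega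
        conv_rhs => rw [h2, pow_succ']
        rfl
      rw [h1, hgk]
      rfl
    have hRW : R ≤ W := fun u hu => hu.1
    have hgR : ∀ x ∈ R, g x ∈ R := by
      rintro x ⟨hx, hx'⟩
      refine ⟨hgW x hx, fun v hv => ?_⟩
      obtain ⟨w, hw, rfl⟩ := hsurj v hv
      rw [hgB]
      exact hx' w hw
    have hpolar_self : ∀ w, QuadraticMap.polar Q w w = 2 * Q w := by
      intro w
      rw [QuadraticMap.polar_self]
      simp
    rcases hmin R hRW hgR with hR | hR
    · right
      have hnd : ∀ u ∈ W, (∀ v ∈ W, QuadraticMap.polar Q u v = 0) → u = 0 := by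
        intro u hu hu'
        have : u ∈ R := ⟨hu, hu'⟩
        rw [hR, Submodule.mem_bot] at this
        exact this
      refine ⟨?_, hnd⟩
      by_contra hlt
      push Not at hlt
      obtain ⟨x, hx, hx'⟩ := hxW
      have hx0 : x ≠ 0 := by
        rintro rfl
        exact hx' (map_zero _)
      have h1 : Module.finrank F W = 1 := by
        have h2 : Module.finrank F W ≠ 0 := by
          intro h0
          have h3 : W = ⊥ := Submodule.finrank_eq_zero.1 h0
          rw [h3, Submodule.mem_bot] at hx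
          exact hx0 hx
        omega
      have hall : ∀ w ∈ W, ∃ c : F, w = c • x := by
        intro w hw
        have h2 := (finrank_eq_one_iff_of_nonzero' (⟨x, hx⟩ : W) (by
          intro h
          exact hx0 (congrArg Subtype.val h))).1 h1 ⟨w, hw⟩
        obtain ⟨c, hc'⟩ := h2
        exact ⟨c, (congrArg Subtype.val hc').symm⟩
      obtain ⟨mu, hmu⟩ := hall (g x) (hgW x hx)
      have hQx : Q x ≠ 0 := by
        intro h0
        apply hx0
        apply hnd x hx
        intro v hv
        obtain ⟨c, rfl⟩ := hall v hv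
        rw [QuadraticMap.polar_smul_right, hpolar_self, h0]
        simp
      have hmu2 : mu * mu = 1 := by
        have h2 := hgQ x
        rw [hmu, QuadraticMap.map_smul, smul_eq_mul] at h2
        exact mul_right_cancel₀ hQx (h2.trans (one_mul _).symm)
      have h2 : p ^ k ∣ 2 := by
        apply hord
        intro w hw
        obtain ⟨c, rfl⟩ := hall w hw
        rw [pow_two]
        show g (g (c • x)) = c • x
        rw [map_smul, map_smul, hmu, map_smul, hmu, smul_smul mu mu, hmu2, one_smul]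
      have := Nat.le_of_dvd (by norm_num) h2
      omega
    · left
      have hpz : ∀ u ∈ W, ∀ v ∈ W, QuadraticMap.polar Q u v = 0 := by
        intro u hu
        rw [← hR] at hu
        exact hu.2
      have hQadd : ∀ u ∈ W, ∀ v ∈ W, Q (u + v) = Q u + Q v := by
        intro u hu v hv
        have h1 := hpz u hu v hv
        unfold QuadraticMap.polar at h1
        linear_combination h1
      let S : Submodule F V :=
        { carrier := {u | u ∈ W ∧ Q u = 0}
          add_mem' := by
            rintro a b ⟨ha, ha'⟩ ⟨hb, hb'⟩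
            refine ⟨W.add_mem ha hb, ?_⟩
            rw [hQadd a ha b hb, ha', hb', add_zero]
          zero_mem' := ⟨W.zero_mem, QuadraticMap.map_zero Q⟩
          smul_mem' := by
            rintro c a ⟨ha, ha'⟩
            refine ⟨W.smul_mem c ha, ?_⟩
            rw [QuadraticMap.map_smul, ha', smul_zero] }
      have hSW : S ≤ W := fun u hu => hu.1
      have hgS : ∀ x ∈ S, g x ∈ S := by
        rintro x ⟨hx, hx'⟩
        exact ⟨hgW x hx, by rw [hgQ, hx']⟩
      rcases hmin S hSW hgS with hS | hS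
      · exfalso
        have h1 : p ^ k ∣ 1 := by
          apply hord
          intro w hw
          rw [pow_one]
          have h2 : g w - w ∈ S := by
            refine ⟨W.sub_mem (hgW w hw) hw, ?_⟩
            rw [sub_eq_add_neg, hQadd _ (hgW w hw) _ (W.neg_mem hw), QuadraticMap.map_neg, hgQ]
            have h3 := hpz w hw w hw
            rw [hpolar_self] at h3
            linear_combination h3
          rw [hS, Submodule.mem_bot] at h2
          exact sub_eq_zero.1 h2
        have := Nat.le_of_dvd (by norm_num) h1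
        omega
      · intro w hw
        rw [← hS] at hw
        exact hw.2

end Pool.Agent.Eng.H38
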